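import Pool.Agent.H73.PHS.Stmts

/-!
Row DVD of the board `phs`: the derivative of `ψ (p + s q) * det (v + s w)`.
-/

set_option autoImplicit false

open Set Filter Topology MeasureTheory Metric

namespace Pool.PHS

theorem DVD_cont {E : Type} [NormedAddCommGroup E] [NormedSpace ℝ E] [FiniteDimensional ℝ E]
    {ι : Type} [Fintype ι] [DecidableEq ι] (b : Module.Basis ι ℝ E) :
    Continuous (fun x : ι → E => b.det x) := by
  have h : (fun x : ι → E => b.det x) = fun x => Matrix.det (b.toMatrix x) := by
    funext x
    rw [Module.Basis.det_apply]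
  rw [h]
  refine Continuous.matrix_det ?_
  refine continuous_matrix fun i j => ?_
  exact (b.coord i).continuous_of_finiteDimensional.comp (continuous_apply j)

theorem DVD_thm : DVDStmt := by
  intro E _ _ _ ι _ _ b ψ p q v w t hψ
  let D : ContinuousMultilinearMap ℝ (fun _ : ι => E) ℝ :=
    { b.det.toMultilinearMap with cont := DVD_cont b }
  have h1 := D.hasFDerivAt (fun i => v i + t • w i)
  have h2 : HasDerivAt (fun s : ℝ => fun i => v i + s • w i) w t := by
    refine hasDerivAt_pi.2 fun i => ?_
    simpa using ((hasDerivAt_id t).smul_const (w i)).const_add (v i)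
  have h3 := h1.comp_hasDerivAt t h2
  have h4 : HasDerivAt (fun s : ℝ => ψ (p + s • q)) (fderiv ℝ ψ (p + t • q) q) t := by
    have h6 := ((hψ.differentiable (by norm_num)) (p + t • q)).hasFDerivAt
    have h5 : HasDerivAt (fun s : ℝ => p + s • q) q t := by
      simpa using ((hasDerivAt_id t).smul_const q).const_add p
    exact h6.comp_hasDerivAt t h5
  have h7 := h4.mul h3
  rw [ContinuousMultilinearMap.linearDeriv_apply] at h7
  exact h7

end Pool.PHS
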